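import Pool.Agent.H12.KTH.Stmts

/-!
# KTH, row PAR: upper bound for `O`, `Y` in the parallelogram of two lines
-/

set_option autoImplicit false

namespace Pool.KTH

open Finset Real
open Pool.Agent.H49.Ent Pool.Agent.H32.Dense
open Pool.Agent.H24.KTH (dsv lvv lev cap Yf kp LevOne LevPlus LevZero)

namespace H71P

lemma dsv_symm {d : ℕ} (x y : Fin d → ℤ) : dsv x y = dsv y x := by
  unfold dsv
  rw [← norm_neg]
  congr 1
  funext k
  simp

lemma lvv_symm {d : ℕ} (M : ℕ) (x y : Fin d → ℤ) : lvv M x y = lvv M y x := by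
  unfold lvv
  rw [dsv_symm]

lemma le_dsv {d : ℕ} (x y : Fin d → ℤ) (k : Fin d) : |(y k : ℝ) - x k| ≤ dsv x y := by
  unfold dsv
  have h := norm_le_pi_norm (fun k => ((x k - y k : ℤ) : ℝ)) k
  rw [Real.norm_eq_abs] at h
  refine le_trans (le_of_eq ?_) h
  push_cast
  rw [abs_sub_comm]

/-- A coordinate where two vectors are furthest apart. -/
lemma exists_max {d : ℕ} (hd : 1 ≤ d) (x y : Fin d → ℤ) :
    ∃ k₀ : Fin d, ∀ k, |(y k : ℝ) - x k| ≤ |(y k₀ : ℝ) - x k₀| := by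
  have : Nonempty (Fin d) := ⟨⟨0, hd⟩⟩
  obtain ⟨k₀, _, h⟩ := Finset.exists_max_image (Finset.univ : Finset (Fin d))
    (fun k => |(y k : ℝ) - x k|) Finset.univ_nonempty
  exact ⟨k₀, fun k => h k (Finset.mem_univ k)⟩

theorem gen {C₁ : ℝ}
    (hC : ∀ (Ω δ : Type) [Fintype Ω] (q : Ω → ℝ) (W : Ω → δ) (X : Ω → ℤ)
      (x K : Ω → ℝ), (∀ w, 0 ≤ q w) → ∑ w, q w = 1 → Det q W x → Det q W K →
      (∀ w, 0 < q w → 1 ≤ K w) →
      CH q X W ≤ Ex q (fun w => Real.log (K w)) +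
        2 * Ex q (fun w => Real.log (1 + |(X w : ℝ) - x w| / K w)) + C₁)
    {d J : ℕ} (hd : 1 ≤ d) {Ω ζ ν : Type} [Fintype Ω] {q : Ω → ℝ} (hq : ∀ w, 0 ≤ q w)
    (h1 : ∑ w, q w = 1) (Z : Ω → ζ) (V : Ω → ν) (va vb : Ω → Fin d → ℤ) (ua : Ω → Fin d → ℝ)
    (s c : Ω → ℤ) (hVa : Det q V va) (hVb : Det q V vb)
    (hu : Det q (fun w => (va w, Z w)) ua) :
    CH q (fun w => (s w + c w, xf (2 ^ J) (ua w) (va w) (s w) (c w) (vb w)))
        (fun w => (V w, Z w)) + Ex q (fun w => lvv (2 ^ J) (va w) (vb w)) ≤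
      CH q (fun w => s w + c w) Z + lm J +
        2 * Ex q (fun w => Real.log (1 + |(c w : ℝ)| / 2 ^ J)) + (C₁ + 2 + 2 * d) := by
  classical
  have hM : ((2 ^ J : ℕ) : ℝ) = 2 ^ J := by push_cast; rfl
  have hM0 : (0 : ℝ) < 2 ^ J := by positivity
  choose kk hkk using fun x y : Fin d → ℤ => exists_max hd x y
  let T : Ω → ℤ := fun w => s w + c w
  let X : Ω → Fin d → ℤ := fun w => xf (2 ^ J) (ua w) (va w) (s w) (c w) (vb w)
  let g : Ω → ℤ := fun w =>
    ⌊(c w : ℝ) / 2 ^ J * ((vb w (kk (va w) (vb w)) : ℝ) - va w (kk (va w) (vb w)))⌋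
  let K : Ω → ℝ := fun w => max (dsv (va w) (vb w)) 1
  let W : Ω → ℤ × (ν × ζ) := fun w => (T w, (V w, Z w))
  have hWab : ∀ w w', 0 < q w → 0 < q w' → W w = W w' →
      va w = va w' ∧ vb w = vb w' ∧ ua w = ua w' ∧ T w = T w' := by
    intro w w' a b e
    simp only [W, Prod.mk.injEq] at e
    have e1 := hVa w w' a b e.2.1
    have e2 := hVb w w' a b e.2.1
    exact ⟨e1, e2, hu w w' a b (by simp only [e1, e.2.2]), e.1⟩
  -- chain rule
  have c1 : CH q (fun w => (T w, X w)) (fun w => (V w, Z w)) ≤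
      CH q (fun w => (X w, T w)) (fun w => (V w, Z w)) :=
    CH_mono_left hq (fun w w' _ _ e => by
      simp only [Prod.mk.injEq] at e ⊢
      tauto)
  have c2 := CH_chain hq X T (fun w => (V w, Z w))
  have c3 : CH q T (fun w => (V w, Z w)) ≤ CH q T Z :=
    CH_mono_cond hq (fun w w' _ _ e => (Prod.ext_iff.mp e).2)
  have c4 := CH_le_add hq X g W
  -- the coordinate of the maximum
  have c5 := hC Ω (ℤ × (ν × ζ)) q W g (fun _ => 0) K hq h1 (fun _ _ _ _ _ => rfl)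
    (fun w w' a b e => by
      obtain ⟨e1, e2, _, _⟩ := hWab w w' a b e
      simp only [K, e1, e2])
    (fun w _ => le_max_right _ _)
  have c6 : Ex q (fun w => Real.log (K w)) = lm J - Ex q (fun w => lvv (2 ^ J) (va w) (vb w)) := by
    have e1 : Ex q (fun w => lm J - lvv (2 ^ J) (va w) (vb w)) =
        lm J - Ex q (fun w => lvv (2 ^ J) (va w) (vb w)) := by
      rw [Ex_sub, Ex_const h1]
    rw [← e1]
    congr 1
    funext w
    have hK : (0 : ℝ) < max (dsv (va w) (vb w)) 1 := lt_of_lt_of_le one_pos (le_max_right _ _)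
    show Real.log (max (dsv (va w) (vb w)) 1) = lm J - lvv (2 ^ J) (va w) (vb w)
    unfold lvv lm
    rw [hM, Real.log_div hM0.ne' hK.ne', Real.log_pow]
    ring
  have c7 : Ex q (fun w => Real.log (1 + |(g w : ℝ) - 0| / K w)) ≤
      1 + Ex q (fun w => Real.log (1 + |(c w : ℝ)| / 2 ^ J)) := by
    have e1 : Ex q (fun w => 1 + Real.log (1 + |(c w : ℝ)| / 2 ^ J)) =
        1 + Ex q (fun w => Real.log (1 + |(c w : ℝ)| / 2 ^ J)) := by
      rw [Ex_add, Ex_const h1]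
    rw [← e1]
    refine Ex_mono hq fun w _ => ?_
    have hK1 : (1 : ℝ) ≤ K w := le_max_right _ _
    have hK0 : (0 : ℝ) < K w := by linarith
    have hg : |(g w : ℝ)| ≤ |(c w : ℝ)| / 2 ^ J * K w + 1 := by
      refine (abs_floor_le _).trans ?_
      rw [abs_mul, abs_div, abs_of_pos hM0]
      have h5 : |(vb w (kk (va w) (vb w)) : ℝ) - va w (kk (va w) (vb w))| ≤ K w :=
        (le_dsv _ _ _).trans (le_max_left _ _)
      have h6 : (0 : ℝ) ≤ |(c w : ℝ)| / 2 ^ J := by positivity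
      linarith [mul_le_mul_of_nonneg_left h5 h6]
    have h7 : |(g w : ℝ) - 0| / K w ≤ |(c w : ℝ)| / 2 ^ J + 1 := by
      rw [sub_zero, div_le_iff₀ hK0]
      linarith
    have h8 : (0 : ℝ) ≤ |(g w : ℝ) - 0| / K w := by positivity
    have h9 : (0 : ℝ) ≤ |(c w : ℝ)| / 2 ^ J := by positivity
    calc Real.log (1 + |(g w : ℝ) - 0| / K w) ≤ Real.log (2 * (1 + |(c w : ℝ)| / 2 ^ J)) := by
          apply Real.log_le_log (by linarith)
          linarith
      _ = Real.log 2 + Real.log (1 + |(c w : ℝ)| / 2 ^ J) :=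
          Real.log_mul (by norm_num) (by positivity)
      _ ≤ _ := by
          have := log_two_le_one
          linarith
  -- the point
  have c8 : CH q X (fun w => (g w, W w)) ≤ 2 * d := by
    have k1 := CH_le_vec hq h1 X (fun w => (g w, W w)) (fun _ => 2)
      (fun w w' a b e k => by
        have e0 := (Prod.ext_iff.mp e).1
        obtain ⟨e1, e2, e3, e4⟩ := hWab w w' a b (Prod.ext_iff.mp e).2
        simp only [g] at e0
        have f1 := (Int.abs_sub_lt_one_of_floor_eq_floor e0).le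
        rw [← e1, ← e2] at f1
        have f2 := hkk (va w) (vb w) k
        have f3 : |((c w : ℝ) / 2 ^ J - c w' / 2 ^ J) * ((vb w k : ℝ) - va w k)| ≤ 1 := by
          rw [abs_mul]
          refine (mul_le_mul_of_nonneg_left f2 (abs_nonneg _)).trans ?_
          rw [← abs_mul, sub_mul]
          exact f1
        refine (floor_sub_le_pair _ _).trans ?_
        have f4 : (pos (2 ^ J) (ua w) (va w) (s w) k + (c w : ℝ) / ((2 ^ J : ℕ) : ℝ) * vb w k) -
            (pos (2 ^ J) (ua w') (va w') (s w') k + (c w' : ℝ) / ((2 ^ J : ℕ) : ℝ) * vb w' k) =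
            ((c w : ℝ) / 2 ^ J - c w' / 2 ^ J) * ((vb w k : ℝ) - va w k) := by
          have e5 : (s w : ℝ) = (s w' : ℝ) + c w' - c w := by
            have : s w + c w = s w' + c w' := e4
            have h2 : (s w : ℝ) + c w = s w' + c w' := by exact_mod_cast this
            linarith
          unfold pos
          rw [← e1, ← e2, ← e3, hM, e5]
          field_simp
          ring
        rw [f4]
        linarith)
    refine k1.trans ?_
    rw [Ex_const h1]
    have k2 : Real.log (2 * 2 + 1) ≤ (2 : ℕ) := log_le_of_pow (by norm_num) (by norm_num)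
    push_cast at k2
    have hd0 : (0 : ℝ) ≤ d := Nat.cast_nonneg d
    nlinarith
  show CH q (fun w => (T w, X w)) (fun w => (V w, Z w)) +
    Ex q (fun w => lvv (2 ^ J) (va w) (vb w)) ≤ _
  have c9 : CH q X (fun w => (T w, (V w, Z w))) = CH q X W := rfl
  have c10 : CH q (fun w => s w + c w) Z = CH q T Z := rfl
  rw [c10]
  rw [c9] at c2
  linarith

end H71P

open H71P

theorem par (h1 : CENStmt) (h2 : UPTStmt) (h3 : CGPStmt) : PARStmt := by
  intro d hd
  obtain ⟨C₁, hC₁, hC⟩ := h1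
  obtain ⟨-, -, ⟨C₂, hC₂, hTO⟩, ⟨C₃, hC₃, hTY⟩⟩ := h2 d
  obtain ⟨C₄, hC₄, hG⟩ := h3 d
  have hd0 : (0 : ℝ) ≤ d := Nat.cast_nonneg d
  have hsm : ∀ (J : ℕ) (F : Cf d J) (x : F.Ω → ℤ), 0 ≤ F.sml x ∧ 0 ≤ F.big x := by
    intro J F x
    refine ⟨Ex_nonneg F.hq fun w _ => Real.log_nonneg ?_,
      Ex_nonneg F.hq fun w _ => Real.log_nonneg ?_⟩
    · have : (0 : ℝ) ≤ 2 ^ J / max 1 |(x w : ℝ)| := by positivity
      linarith
    · have : (0 : ℝ) ≤ |(x w : ℝ)| / 2 ^ J := by positivity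
      linarith
  have her : ∀ (J : ℕ) (F : Cf d J) (L sb e : ℝ), F.Ok L sb e → 1 ≤ er J e := by
    intro J F L sb e hF
    have h5 : 0 ≤ Real.log ((J : ℝ) + 2) := Real.log_nonneg (by
      have : (0 : ℝ) ≤ J := Nat.cast_nonneg J
      linarith)
    have := hF.e0
    unfold er
    linarith
  constructor
  · refine ⟨C₂ + 2 * C₄ + (C₁ + 2 + 2 * d), by positivity, fun J F L sb e hF => ?_⟩
    have k1 := gen hC hd F.hq F.h1 F.Z F.v01 F.v₀ F.v₁ F.u₀ F.s F.c
      (fun w w' _ _ e => (Prod.ext_iff.mp e).1) (fun w w' _ _ e => (Prod.ext_iff.mp e).2) F.hu₀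
      (J := J)
    have k2 := hTO J F L sb e hF
    have k3 := hG J F L sb e hF
    have k4 := her J F L sb e hF
    have s1 := hsm J F F.c
    have s2 := hsm J F F.c₂
    have k5 : F.big F.c ≤ C₄ * er J e := by
      simp only at k3
      linarith [s1.1, s2.1, s2.2]
    have k6 : (C₁ + 2 + 2 * d) ≤ (C₁ + 2 + 2 * d) * er J e := le_mul_of_one_le_right (by positivity) k4
    have k7 : Ex F.q (fun w => Real.log (1 + |(F.c w : ℝ)| / 2 ^ J)) = F.big F.c := rfl
    have k8 : CH F.q (fun w => F.s w + F.c w) F.Z = CH F.q F.TO F.Z := rfl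
    have k9 : CH F.q (fun w => (F.s w + F.c w,
        xf (2 ^ J) (F.u₀ w) (F.v₀ w) (F.s w) (F.c w) (F.v₁ w))) (fun w => (F.v01 w, F.Z w)) =
        CH F.q F.O (fun w => (F.v01 w, F.Z w)) := rfl
    have k10 : Ex F.q (fun w => lvv (2 ^ J) (F.v₀ w) (F.v₁ w)) = F.y01 := rfl
    rw [k7, k8, k9, k10] at k1
    simp only at k2
    show CH F.q F.O (fun w => (F.v01 w, F.Z w)) + F.y01 - 2 * lm J ≤ _
    nlinarith [k1, k2, k5, k6]
  · refine ⟨C₃ + 2 * C₄ + (C₁ + 2 + 2 * d), by positivity, fun J F L sb e hF => ?_⟩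
    have k1 := gen hC hd F.hq F.h1 F.Z F.v12 F.v₂ F.v₁ F.u₂ F.tr F.c₂
      (fun w w' _ _ e => (Prod.ext_iff.mp e).2) (fun w w' _ _ e => (Prod.ext_iff.mp e).1) F.hu₂
      (J := J)
    have k2 := hTY J F L sb e hF
    have k3 := hG J F L sb e hF
    have k4 := her J F L sb e hF
    have s1 := hsm J F F.c
    have s2 := hsm J F F.c₂
    have k5 : F.big F.c₂ ≤ C₄ * er J e := by
      simp only at k3
      linarith [s1.1, s1.2, s2.1]
    have k6 : (C₁ + 2 + 2 * d) ≤ (C₁ + 2 + 2 * d) * er J e := le_mul_of_one_le_right (by positivity) k4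
    have k7 : Ex F.q (fun w => Real.log (1 + |(F.c₂ w : ℝ)| / 2 ^ J)) = F.big F.c₂ := rfl
    have k8 : CH F.q (fun w => F.tr w + F.c₂ w) F.Z = CH F.q F.TY F.Z := rfl
    have k9 : CH F.q (fun w => (F.tr w + F.c₂ w,
        xf (2 ^ J) (F.u₂ w) (F.v₂ w) (F.tr w) (F.c₂ w) (F.v₁ w))) (fun w => (F.v12 w, F.Z w)) =
        CH F.q F.Y (fun w => (F.v12 w, F.Z w)) := rfl
    have k10 : Ex F.q (fun w => lvv (2 ^ J) (F.v₂ w) (F.v₁ w)) = F.y12 := by
      unfold Cf.y12
      congr 1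
      funext w
      exact lvv_symm _ _ _
    rw [k7, k8, k9, k10] at k1
    simp only at k2
    show CH F.q F.Y (fun w => (F.v12 w, F.Z w)) + F.y12 - 2 * lm J ≤ _
    nlinarith [k1, k2, k5, k6]

end Pool.KTH
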