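import Pool.Agent.H24.KTH.Top
import Pool.Agent.H55.Dense.Time

/-!
# KTH, row TWO: two conditionally independent times of a line, with caps
-/

set_option autoImplicit false

namespace Pool.Agent.H24.KTH

open Finset Real
open Pool.Agent.H49.Ent Pool.Agent.H32.Dense

namespace H71T

lemma ediv_close {a b G : ℤ} (hG : 0 < G) (h : a / G = b / G) : |a - b| ≤ G := by
  have h1 := Int.emod_add_mul_ediv a G
  have h2 := Int.emod_add_mul_ediv b G
  have h3 := Int.emod_nonneg a hG.ne'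
  have h4 := Int.emod_nonneg b hG.ne'
  have h5 := Int.emod_lt_of_pos a hG
  have h6 := Int.emod_lt_of_pos b hG
  rw [h] at h1
  rw [abs_le]
  constructor <;> linarith

lemma floor_close {x y G : ℝ} (h : |((⌊x⌋ - ⌊y⌋ : ℤ) : ℝ)| ≤ G) : |x - y| ≤ G + 1 := by
  have h1 := Int.floor_le x
  have h2 := Int.lt_floor_add_one x
  have h3 := Int.floor_le y
  have h4 := Int.lt_floor_add_one y
  push_cast at h
  rw [abs_le] at h ⊢
  constructor <;> linarith [h.1, h.2]

lemma ediv_gap {a b G : ℤ} (hG : 0 < G) :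
    |((a / G - b / G : ℤ) : ℝ)| ≤ |(a : ℝ) - b| / G + 1 := by
  have hG' : (0 : ℝ) < G := by exact_mod_cast hG
  have h1 := Int.emod_add_mul_ediv a G
  have h2 := Int.emod_add_mul_ediv b G
  have h3 := Int.emod_nonneg a hG.ne'
  have h4 := Int.emod_nonneg b hG.ne'
  have h5 := Int.emod_lt_of_pos a hG
  have h6 := Int.emod_lt_of_pos b hG
  have k : |(G : ℝ) * (((a / G - b / G : ℤ)) : ℝ)| ≤ |(a : ℝ) - b| + G := by
    have e : G * (a / G - b / G) = (a - b) - (a % G - b % G) := by linarith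
    have e' : (G : ℝ) * (((a / G - b / G : ℤ)) : ℝ) = ((a : ℝ) - b) - ((a % G - b % G : ℤ) : ℝ) := by
      exact_mod_cast e
    rw [e']
    refine (abs_sub _ _).trans ?_
    have h7 : |a % G - b % G| ≤ G := abs_le.mpr ⟨by linarith, by linarith⟩
    have h8 : |((a % G - b % G : ℤ) : ℝ)| ≤ G := by exact_mod_cast h7
    linarith
  rw [abs_mul, abs_of_pos hG'] at k
  have e2 : |(a : ℝ) - b| / G + 1 = (|(a : ℝ) - b| + G) / G := by field_simp
  rw [e2, le_div_iff₀ hG']
  linarith

/-- The gap of two speeds. -/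
lemma gap {M : ℕ} (hM : 0 < M) {c G : ℝ} (hG : 1 ≤ G) {a b : ℤ} (ha : |a| ≤ M) (hb : |b| ≤ M)
    (h : |c / M * (a - b)| ≤ 4 * G) : |(a : ℝ) - b| ≤ 4 * G * (M / max |c| 1) := by
  have hM0 : (0 : ℝ) < M := by exact_mod_cast hM
  have ha' : |(a : ℝ)| ≤ M := by exact_mod_cast ha
  have hb' : |(b : ℝ)| ≤ M := by exact_mod_cast hb
  rcases le_total |c| 1 with h1 | h1
  · rw [max_eq_right h1, div_one]
    calc |(a : ℝ) - b| ≤ |(a : ℝ)| + |(b : ℝ)| := abs_sub _ _
      _ ≤ 2 * M := by linarith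
      _ ≤ 4 * G * M := by nlinarith
  · rw [max_eq_left h1]
    have hc : 0 < |c| := by linarith
    rw [abs_mul, abs_div, Nat.abs_cast] at h
    have : 4 * G * ((M : ℝ) / |c|) = 4 * G / (|c| / M) := by field_simp
    rw [this, le_div_iff₀ (by positivity)]
    linarith

lemma log_gap {y : ℝ} (hy : 1 ≤ y) : Real.log (2 * (4 * y + 1) + 1) ≤ 3 + Real.log y := by
  calc Real.log (2 * (4 * y + 1) + 1) ≤ Real.log (11 * y) := by
        apply Real.log_le_log (by positivity)
        linarith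
    _ = Real.log 11 + Real.log y := Real.log_mul (by norm_num) (by positivity)
    _ ≤ _ := by
        have : Real.log 11 ≤ (3 : ℕ) := log_le_of_pow (by norm_num) (by norm_num)
        push_cast at this
        linarith

end H71T

open H71T

theorem two : TWOStmt := by
  classical
  intro d N _
  set LN : ℝ := Real.log (N + 1) with hLN
  have hLN0 : 0 ≤ LN := Real.log_nonneg (by have : (0 : ℝ) ≤ N := Nat.cast_nonneg N; linarith)
  refine ⟨(2 * d + 2) * (1 + LN) + 7 * d, ?_⟩
  intro J Ω _ ζ p Z v u s w e h hK hw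
  have hp := h.hp
  have h1 := h.h1
  have hd : (0 : ℝ) ≤ d := Nat.cast_nonneg d
  have hK0 : 0 ≤ Kf (2 ^ J) p (bv Z v) s := Kf_nonneg h
  have he : 0 ≤ e := hK0.trans hK
  set M : ℕ := 2 ^ J with hMdef
  let g : Ω → ℕ := fun ω => J - lev J N (w ω)
  let D : Ω → Fin d → ℤ := fun ω => cap J (lev J N (w ω)) (v ω)
  let XC : Ω → Fin d → ℤ := fun ω => cap J (lev J N (w ω)) (rd (pos M (u ω) (v ω) (s ω)))
  let Zp : Ω → ℕ × ζ := fun ω => (w ω, Z ω)
  let b : Ω → (Fin d → ℤ) × (ℕ × ζ) := bv Zp v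
  have h' : IsFam M p Zp v u s := by
    refine ⟨h.hM, h.hp, h.h1, h.hv, ?_, h.hτ⟩
    intro ω ω' a b e
    refine h.hu ω ω' a b ?_
    simp only [Prod.mk.injEq, Zp] at e ⊢
    exact ⟨e.1, e.2.2⟩
  -- the information of the time given `b`
  have hKb : Kf M p b s ≤ e + LN := by
    have k1 := CH_le_add hp s w (bv Z v)
    have k2 : CH p w (bv Z v) ≤ LN := by
      refine (CH_le_card hp h1 w (bv Z v) (fun _ => Finset.range (N + 1))
        (fun ω _ => Finset.mem_range.mpr (Nat.lt_succ_of_le (hw ω)))).trans ?_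
      rw [Finset.card_range, Ex_const h1, hLN]
      push_cast
      exact le_rfl
    have k3 : CH p s (fun ω => (w ω, bv Z v ω)) = CH p s b := by
      refine CH_congr hp ?_ ?_ ?_ ?_
      · intro ω ω' _ _ e; exact (Prod.ext_iff.mp e).1
      · intro ω ω' _ _ e; exact (Prod.ext_iff.mp e).1
      · intro ω ω' _ _ e
        simp only [bv, Prod.mk.injEq, b, Zp] at e ⊢
        tauto
      · intro ω ω' _ _ e
        simp only [bv, Prod.mk.injEq, b, Zp] at e ⊢
        tauto
    unfold Kf at hK ⊢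
    linarith
  have hKf : Kf M p b s = Real.log M - CH p s b := rfl
  have hG : Gf M p b s ≤ 2 * (Kf M p b s + 2) := by
    have k1 := Pool.Agent.H55.Dense.Gf_le h.hM hp h1 b s h.hτ (θ := 1 / 2) (by norm_num)
      (by norm_num)
    have k2 : Real.log (3 / (1 - 1 / 2)) ≤ 2 := by
      have : Real.log (3 / (1 - 1 / 2)) ≤ (2 : ℕ) := log_le_of_pow (by norm_num) (by norm_num)
      simpa using this
    have k3 : (1 : ℝ) / (1 / 2) = 2 := by norm_num
    rw [k3] at k1
    linarith
  set q : Ω × Ω → ℝ := dbl p b with hqd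
  have hq : ∀ x, 0 ≤ q x := dbl_nonneg hp
  have hq1 : ∑ x, q x = 1 := by rw [(dbl_fst hp).sum]; exact h1
  have m1 : Marg q p (fun x => x.1) := dbl_fst hp
  have m2 : Marg q p (fun x => x.2) := dbl_snd hp
  have hb : ∀ x, 0 < q x → v x.1 = v x.2 ∧ w x.1 = w x.2 ∧ Z x.1 = Z x.2 := by
    intro x hx
    have := dbl_eq hp hx
    simpa [bv, b, Zp] using this
  have hu : ∀ x, 0 < q x → u x.1 = u x.2 := by
    intro x hx
    obtain ⟨e1, e2, e3⟩ := hb x hx
    exact h.hu _ _ (m1.pos hq hx) (m2.pos hq hx) (by simp only [e1, e3])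
  have hτ1 : ∀ x, 0 < q x → 0 ≤ s x.1 ∧ s x.1 < M := fun x hx => h.hτ _ (m1.pos hq hx)
  have hτ2 : ∀ x, 0 < q x → 0 ≤ s x.2 ∧ s x.2 < M := fun x hx => h.hτ _ (m2.pos hq hx)
  -- lower bound
  have a0 : CH q (fun x => D x.1) (fun x => Zp x.1) = CH p D Zp := m1.CH D Zp
  have a1 := CH_bayes hq (fun x => D x.1) (fun x => s x.1) (fun x => Zp x.1)
  have a2 : CH p s b ≤ CH q (fun x => s x.1) (fun x => (D x.1, Zp x.1)) := by
    have k : CH q (fun x => s x.1) (fun x => b x.1) = CH p s b := m1.CH s b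
    rw [← k]
    refine CH_mono_cond hq ?_
    intro x x' _ _ e
    simp only [bv, Prod.mk.injEq, b, Zp, D] at e ⊢
    obtain ⟨e1, e2, e3⟩ := e
    rw [e1, e2]
    exact ⟨rfl, rfl, e3⟩
  have a3 := CH_time_le hq hq1 hτ1 (fun x => Zp x.1)
  have a4 := CH_bayes hq (fun x => D x.1) (fun x => s x.2) (fun x => (s x.1, Zp x.1))
  have a5 : CH p s b ≤ CH q (fun x => s x.2) (fun x => (D x.1, (s x.1, Zp x.1))) := by
    have hh : CH q (fun x => s x.2) (fun x => (b x.2, s x.1)) = CH p s b :=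
      CH_dbl_2 hp (b := b) s s
    rw [← hh]
    refine CH_mono_cond hq ?_
    intro x x' hx hx' e
    obtain ⟨e1, e2, e3⟩ := hb x hx
    obtain ⟨f1, f2, f3⟩ := hb x' hx'
    simp only [bv, Prod.mk.injEq, b, Zp, D] at e ⊢
    obtain ⟨⟨g1, g2, g3⟩, g4⟩ := e
    have k1 : v x.1 = v x'.1 := by rw [e1, f1, g1]
    have k2 : w x.1 = w x'.1 := by rw [e2, f2, g2]
    have k3 : Z x.1 = Z x'.1 := by rw [e3, f3, g3]
    rw [k1, k2]
    exact ⟨rfl, g4, rfl, k3⟩
  have a6 := CH_time_le hq hq1 hτ2 (fun x => (s x.1, Zp x.1))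
  -- upper bound
  have b1 := CH_le_add hq (fun x => D x.1) (fun x => XC x.1) (fun x => (s x.2, (s x.1, Zp x.1)))
  have b2 := CH_le_add hq (fun x => D x.1) (fun x => XC x.2)
    (fun x => (XC x.1, (s x.2, (s x.1, Zp x.1))))
  let sc : Ω → ℤ := fun ω => s ω / 2 ^ (J - lev J N (w ω))
  have b3 : CH q (fun x => XC x.1) (fun x => (s x.2, (s x.1, Zp x.1))) ≤
      CH p XC (fun ω => (sc ω, w ω, Z ω)) := by
    have e : CH q (fun x => XC x.1) (fun x => (sc x.1, w x.1, Z x.1)) =
        CH p XC (fun ω => (sc ω, w ω, Z ω)) := m1.CH XC (fun ω => (sc ω, w ω, Z ω))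
    rw [← e]
    refine CH_mono_cond hq ?_
    intro x x' _ _ e
    simp only [Prod.mk.injEq, Zp, sc] at e ⊢
    obtain ⟨_, e2, e3, e4⟩ := e
    rw [e2, e3]
    exact ⟨rfl, rfl, e4⟩
  have b4 : CH q (fun x => XC x.2) (fun x => (XC x.1, (s x.2, (s x.1, Zp x.1)))) ≤
      CH p XC (fun ω => (sc ω, w ω, Z ω)) := by
    have e : CH q (fun x => XC x.2) (fun x => (sc x.2, w x.2, Z x.2)) =
        CH p XC (fun ω => (sc ω, w ω, Z ω)) := m2.CH XC (fun ω => (sc ω, w ω, Z ω))
    rw [← e]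
    refine CH_mono_cond hq ?_
    intro x x' hx hx' e
    obtain ⟨e1, e2, e3⟩ := hb x hx
    obtain ⟨f1, f2, f3⟩ := hb x' hx'
    simp only [Prod.mk.injEq, Zp, sc] at e ⊢
    obtain ⟨_, g1, _, g3, g4⟩ := e
    have k2 : w x.2 = w x'.2 := by rw [← e2, ← f2, g3]
    have k3 : Z x.2 = Z x'.2 := by rw [← e3, ← f3, g4]
    rw [g1, k2]
    exact ⟨rfl, rfl, k3⟩
  have b5 : CH q (fun x => D x.1) (fun x => (XC x.2, (XC x.1, (s x.2, (s x.1, Zp x.1))))) ≤
      d * (Gf M p b s + 3) := by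
    have k1 := CH_le_vec hq hq1 (fun x => D x.1)
      (fun x => (XC x.2, (XC x.1, (s x.2, (s x.1, Zp x.1)))))
      (fun x => 4 * (M / max |(s x.1 : ℝ) - s x.2| 1) + 1)
      (fun x x' hx hx' e k => by
        simp only [Prod.mk.injEq, Zp] at e
        obtain ⟨e1, e2, e3, e4, e5, _⟩ := e
        obtain ⟨p1, p2, _⟩ := hb x hx
        obtain ⟨r1, r2, _⟩ := hb x' hx'
        have p4 := hu x hx
        have r4 := hu x' hx'
        have hw2 : w x.2 = w x'.2 := by rw [← p2, ← r2, e5]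
        set G : ℤ := 2 ^ (J - lev J N (w x.1)) with hGdef
        have hGp : 0 < G := by positivity
        have hG1 : (1 : ℝ) ≤ G := by exact_mod_cast hGp
        have c1 : (rd (pos M (u x.1) (v x.1) (s x.1))) k / G =
            (rd (pos M (u x'.1) (v x'.1) (s x'.1))) k / G := by
          have := congrFun e2 k
          simp only [XC, cap] at this
          rw [← e5] at this
          exact this
        have c2 : (rd (pos M (u x.1) (v x.1) (s x.2))) k / G =
            (rd (pos M (u x'.1) (v x'.1) (s x'.2))) k / G := by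
          have := congrFun e1 k
          simp only [XC, cap] at this
          rw [← hw2, ← p2, ← p1, ← p4, ← r1, ← r4] at this
          exact this
        have d1 := ediv_close hGp c1
        have d2 := ediv_close hGp c2
        have d1' : |((⌊pos M (u x.1) (v x.1) (s x.1) k⌋ -
            ⌊pos M (u x'.1) (v x'.1) (s x'.1) k⌋ : ℤ) : ℝ)| ≤ G := by exact_mod_cast d1
        have d2' : |((⌊pos M (u x.1) (v x.1) (s x.2) k⌋ -
            ⌊pos M (u x'.1) (v x'.1) (s x'.2) k⌋ : ℤ) : ℝ)| ≤ G := by exact_mod_cast d2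
        have f1 := floor_close d1'
        have f2 := floor_close d2'
        rw [e4] at f1
        rw [e3] at f2
        have f3 : |((s x.1 : ℝ) - s x.2) / M * ((v x.1 k : ℝ) - v x'.1 k)| ≤ 4 * G := by
          have : ((s x.1 : ℝ) - s x.2) / M * ((v x.1 k : ℝ) - v x'.1 k) =
            (pos M (u x.1) (v x.1) (s x'.1) k - pos M (u x'.1) (v x'.1) (s x'.1) k) -
            (pos M (u x.1) (v x.1) (s x'.2) k - pos M (u x'.1) (v x'.1) (s x'.2) k) := by
            unfold pos
            rw [e3, e4]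
            ring
          rw [this]
          refine (abs_sub _ _).trans ?_
          linarith
        have f4 := gap h.hM hG1 (h.hv _ (m1.pos hq hx) k) (h.hv _ (m1.pos hq hx') k) f3
        have f5 := ediv_gap (a := v x.1 k) (b := v x'.1 k) hGp
        have f6 : ((D x.1 k - D x'.1 k : ℤ) : ℝ) = ((v x.1 k / G - v x'.1 k / G : ℤ) : ℝ) := by
          simp only [D, cap]
          rw [← e5]
        rw [f6]
        refine f5.trans ?_
        have f7 : |(v x.1 k : ℝ) - v x'.1 k| / G ≤ 4 * (M / max |(s x.1 : ℝ) - s x.2| 1) := by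
          rw [div_le_iff₀ (by linarith)]
          linarith
        linarith)
    refine k1.trans ?_
    refine mul_le_mul_of_nonneg_left ?_ hd
    calc Ex q (fun x => Real.log (2 * (4 * (M / max |(s x.1 : ℝ) - s x.2| 1) + 1) + 1)) ≤
        Ex q (fun x => 3 + ell M (s x.1) (s x.2)) :=
          Ex_mono hq fun x hx => by
            have hM1 : (1 : ℝ) ≤ M := by exact_mod_cast h.hM
            refine log_gap ?_
            rw [one_le_div (lt_of_lt_of_le one_pos (le_max_right _ _))]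
            refine max_le ?_ hM1
            have i1 : (0 : ℝ) ≤ s x.1 := by exact_mod_cast (hτ1 x hx).1
            have i2 : (s x.1 : ℝ) < M := by exact_mod_cast (hτ1 x hx).2
            have i3 : (0 : ℝ) ≤ s x.2 := by exact_mod_cast (hτ2 x hx).1
            have i4 : (s x.2 : ℝ) < M := by exact_mod_cast (hτ2 x hx).2
            exact abs_le.mpr ⟨by linarith, by linarith⟩
      _ = 3 + Ex q (fun x => ell M (s x.1) (s x.2)) := by
          rw [Ex_add, Ex_const hq1]
      _ = Gf M p b s + 3 := by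
          unfold Gf
          rw [← hqd]
          ring
  have hfin : CH p D Zp ≤ 2 * CH p XC (fun ω => (sc ω, w ω, Z ω)) +
      d * (Gf M p b s + 3) + 2 * Kf M p b s := by
    rw [hKf]
    linarith
  have hG' : d * (Gf M p b s + 3) ≤ d * (2 * (Kf M p b s + 2) + 3) :=
    mul_le_mul_of_nonneg_left (by linarith) hd
  have hKd : d * (Kf M p b s) ≤ d * (e + LN) := mul_le_mul_of_nonneg_left hKb hd
  show CH p D Zp ≤ 2 * CH p XC (fun ω => (sc ω, w ω, Z ω)) +
    ((2 * d + 2) * (1 + LN) + 7 * d) * (e + 1)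
  have x1 : 0 ≤ (d : ℝ) * e := mul_nonneg hd he
  have x2 : 0 ≤ (d : ℝ) * (LN * e) := mul_nonneg hd (mul_nonneg hLN0 he)
  have x3 : 0 ≤ LN * e := mul_nonneg hLN0 he
  nlinarith [hfin, hG', hKd, hKb, x1, x2, x3, hd, he, hLN0]

end Pool.Agent.H24.KTH
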